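import Pool.Agent.H54.WM.Targets
import Pool.Agent.H65.HD9.Y1
import Pool.Agent.H3.HD.Iter

/-!
# MP_e37c09_lc, board `wm_modules`, row FIX: fixed points of the embedding
-/

open Ordinal Cardinal Order Set
open scoped ZFSet

universe u

namespace Pool.Agent.H70.WM.FIX

open _root_.HD Pool.Agent.H54.WM

variable {ξ κ : Ordinal.{u}} {j : ZFSet.{u} → ZFSet.{u}} {M : ZFSet.{u} → Prop}
  {jj : ZFSet.{u} → ZFSet.{u}}

/-- transfer of absolute predicates -/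
theorem tr (W : WEmb ξ κ j M jj) {P : (ℕ → ZFSet.{u}) → Prop} (hP : D0 P) (v : ℕ → ZFSet.{u})
    (hv : ∀ n, HOD (v n)) : P v ↔ P (jj ∘ v) := by
  obtain ⟨φ, hφ⟩ := hP
  rw [hφ HOD HOD_tra v hv, W.elem φ v hv]
  exact (hφ M W.tra (jj ∘ v) fun n => W.map _ (hv n)).symm

theorem jHV (B : Bas ξ κ j) (W : WEmb ξ κ j M jj) : jj (HV ξ) = HV κ := by
  have hVH : VH ξ (HV ξ) := ⟨hod_HV ξ, HV_sub ξ⟩
  have hVK : VH κ (HV κ) := ⟨hod_HV κ, HV_sub κ⟩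
  rw [W.ext _ hVH]
  have h1 := (B.emb.elem (.neg (.ex (.ex (.and (.mem 0 1) (.neg (.mem 0 2))))))
    (fun _ => HV ξ) (fun _ => hVH)).1 (by
      rintro ⟨y, hy, z, -, hzy, hz⟩
      exact hz (mem_HV_of_VH hy hzy))
  ext z
  constructor
  · intro hz
    exact mem_HV_of_VH (B.emb.map _ hVH) hz
  · intro hz
    by_contra h
    exact h1 ⟨HV κ, hVK, z, VH_of_HV hz, hz, h⟩

theorem jmem (W : WEmb ξ κ j M jj) {x y : ZFSet.{u}} (hx : HOD x) (hy : HOD y) :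
    x ∈ y ↔ jj x ∈ jj y := by
  have h := tr W (D0.mem 0 1) (cons x fun _ => y) (by
    rintro (_ | n)
    exacts [hx, hy])
  exact h

theorem d0_ord : D0.{u} fun v => (v 0).IsOrdinal := by
  refine ((D0.allMem (R := fun y v => ∀ z ∈ y, z ∈ v 0) 0
    (D0.allMem (R := fun z v => z ∈ v 1) 0 (D0.mem 0 2))).and
    (D0.allMem (R := fun w _ => ∀ z ∈ w, ∀ y ∈ z, y ∈ w) 0
      (D0.allMem (R := fun z v => ∀ y ∈ z, y ∈ v 0) 0
        (D0.allMem (R := fun y v => y ∈ v 1) 0 (D0.mem 0 2))))).congr fun v => ?_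
  constructor
  · intro h
    exact ⟨fun y hy z hz => h.mem_trans hz hy, fun w hw z hz y hy => h.mem_trans' hy hz hw⟩
  · rintro ⟨h1, h2⟩
    exact ⟨fun y hy z hz => h1 y hy z hz, fun {y z w} hy hz hw => h2 w hw z hz y hy⟩

/-- the action on the ordinals -/
noncomputable def Jo (jj : ZFSet.{u} → ZFSet.{u}) (a : Ordinal.{u}) : Ordinal.{u} :=
  (jj a.toZFSet).rank

theorem jj_ord (W : WEmb ξ κ j M jj) (a : Ordinal.{u}) : jj a.toZFSet = (Jo jj a).toZFSet := by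
  have h := (tr W d0_ord (fun _ => a.toZFSet) fun _ => HOD.ordinal a).1 (ZFSet.isOrdinal_toZFSet a)
  exact (ZFSet.IsOrdinal.toZFSet_rank_eq h).symm

theorem Jo_mono (W : WEmb ξ κ j M jj) : StrictMono (Jo jj) := by
  intro a b hab
  have h := (jmem W (HOD.ordinal a) (HOD.ordinal b)).1 (toZFSet_mem_toZFSet_iff.2 hab)
  rw [jj_ord W a, jj_ord W b, toZFSet_mem_toZFSet_iff] at h
  exact h

theorem hv4 {a b c d : ZFSet.{u}} (ha : HOD a) (hb : HOD b) (hc : HOD c) (hd : HOD d) :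
    ∀ n, HOD (cons a (cons b (cons c fun _ => d)) n) := by
  rintro (_ | _ | _ | n)
  exacts [ha, hb, hc, hd]

theorem s1 (B : Bas ξ κ j) (W : WEmb ξ κ j M jj) {f τ g : ZFSet.{u}} (hf : HOD f) (hτ : HOD τ)
    (hg : HOD g) (h : ∀ u ∈ HV ξ, ∀ y ∈ τ, y = ap f u → y = ap g u) :
    ∀ u ∈ HV κ, ∀ y ∈ jj τ, y = ap (jj f) u → y = ap (jj g) u := by
  have hD : D0.{u} fun v => ∀ u ∈ v 0, ∀ y ∈ v 2, y = ap (v 1) u → y = ap (v 3) u :=
    D0.allMem (R := fun u v => ∀ y ∈ v 2, y = ap (v 1) u → y = ap (v 3) u) 0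
      (D0.allMem (R := fun y v => y = ap (v 2) (v 0) → y = ap (v 4) (v 0)) 3
        ((D0.ap 0 3 1).imp (D0.ap 0 5 1)))
  have h1 := (tr W hD (cons (HV ξ) (cons f (cons τ fun _ => g)))
    (hv4 (hod_HV ξ) hf hτ hg)).1 h
  intro u hu
  rw [← jHV B W] at hu
  exact h1 u hu

theorem s2 (B : Bas ξ κ j) (W : WEmb ξ κ j M jj) {f τ g : ZFSet.{u}} (hf : HOD f) (hτ : HOD τ)
    (hg : HOD g) (h : ∀ u ∈ HV ξ, ∀ y ∈ τ, y = ap f u → y ∈ g) :
    ∀ u ∈ HV κ, ∀ y ∈ jj τ, y = ap (jj f) u → y ∈ jj g := by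
  have hD : D0.{u} fun v => ∀ u ∈ v 0, ∀ y ∈ v 2, y = ap (v 1) u → y ∈ v 3 :=
    D0.allMem (R := fun u v => ∀ y ∈ v 2, y = ap (v 1) u → y ∈ v 3) 0
      (D0.allMem (R := fun y v => y = ap (v 2) (v 0) → y ∈ v 4) 3
        ((D0.ap 0 3 1).imp (D0.mem 0 5)))
  have h1 := (tr W hD (cons (HV ξ) (cons f (cons τ fun _ => g)))
    (hv4 (hod_HV ξ) hf hτ hg)).1 h
  intro u hu
  rw [← jHV B W] at hu
  exact h1 u hu

/-- few pairs of codes -/
theorem card_lt {K : Cardinal.{u}} (hK0 : ℵ₀ < K) {τ1 τ2 σ : Ordinal.{u}} (h1 : τ1 < K.ord)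
    (h2 : τ2 < K.ord) (F : Ordinal.{u} → Ordinal.{u} → Ordinal.{u})
    (hF : ∀ b < σ, ∃ a1 < τ1, ∃ a2 < τ2, b = F a1 a2) : σ < K.ord := by
  have hsub : Iio σ ⊆ Set.range (fun p : Iio τ1 × Iio τ2 => F p.1.1 p.2.1) := by
    intro b hb
    obtain ⟨a1, ha1, a2, ha2, h⟩ := hF b hb
    exact ⟨(⟨a1, ha1⟩, ⟨a2, ha2⟩), h.symm⟩
  have h3 := (Cardinal.mk_le_mk_of_subset hsub).trans Cardinal.mk_range_le
  rw [Cardinal.mk_prod, Cardinal.lift_id, Cardinal.lift_id, Cardinal.mk_Iio_ordinal,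
    Cardinal.mk_Iio_ordinal, Cardinal.mk_Iio_ordinal, ← Cardinal.lift_mul,
    Cardinal.lift_le] at h3
  exact Cardinal.lt_ord.2 (h3.trans_lt (Cardinal.mul_lt_of_lt hK0.le (Cardinal.lt_ord.1 h1)
    (Cardinal.lt_ord.1 h2)))

theorem X : T_FIX.{u} := by
  intro ξ κ j M jj B W K hK hK0 hκ hpow
  have hlim : IsSuccLimit K.ord := Cardinal.isSuccLimit_ord hK0.le
  have hξ : ξ < K.ord := B.le.trans_lt hκ
  have hω : ω < K.ord := by
    rw [← Cardinal.ord_aleph0]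
    exact Cardinal.ord_lt_ord.2 hK0
  have hadd := Ordinal.isPrincipal_add_ord hK0.le
  -- the values of functions are given by few codes
  have hgen : ∀ τ y, y ∈ jj τ → HOD τ → ∃ f a, HOD f ∧ a ∈ HV κ ∧ y = ap (jj f) a :=
    fun τ y hy hτ => W.gen y (W.tra _ (W.map _ hτ) _ hy)
  have hA : ∀ τ < K.ord, Jo jj τ < K.ord := by
    intro τ hτ
    set ρ : Ordinal.{u} := max ξ τ + ω with hρ
    have hρK : ρ < K.ord := hadd (max_lt hξ hτ) hω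
    have hρl : IsSuccLimit ρ := Ordinal.isSuccLimit_add _ Ordinal.isSuccLimit_omega0
    have hρ1 : ξ ≤ ρ := (le_max_left _ _).trans le_self_add
    have hρ2 : τ ≤ ρ := (le_max_right _ _).trans le_self_add
    have hgr : ∀ f, gr ξ f τ.toZFSet ∈ V_ (succ ρ) := by
      intro f
      rw [ZFSet.mem_vonNeumann, lt_succ_iff, ← ZFSet.subset_vonNeumann]
      intro p hp
      obtain ⟨u, hu, rfl, h⟩ := mem_gr.1 hp
      refine (pair_mem_V hρl).2 ⟨?_, ?_⟩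
      · exact ZFSet.vonNeumann_subset_of_le hρ1 (mem_HV.1 hu).1
      · exact ZFSet.vonNeumann_subset_of_le hρ2 (Ordinal.toZFSet_subset_vonNeumann τ h)
    obtain ⟨τ1, hτ1, e1, he1⟩ := Pool.Agent.H65.HD9.Y1.X K hK hK0 hpow (succ ρ)
      (hlim.succ_lt hρK)
    obtain ⟨τ2, hτ2, e2, he2⟩ := Pool.Agent.H65.HD9.Y1.X K hK hK0 hpow κ hκ
    refine card_lt hK0 hτ1 hτ2 (fun a1 a2 => (ap (jj (en (e1 a1))) (en (e2 a2))).rank) ?_
    intro b hb
    have hy : b.toZFSet ∈ jj τ.toZFSet := by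
      rw [jj_ord W τ, toZFSet_mem_toZFSet_iff]
      exact hb
    obtain ⟨f, a, hf, ha, hya⟩ := hgen _ _ hy (HOD.ordinal τ)
    have hg : HOD (gr ξ f τ.toZFSet) := hod_gr hf (HOD.ordinal τ)
    have h1 := s1 B W hf (HOD.ordinal τ) hg (fun u hu y hy he => by
      subst he
      exact (ap_gr hu hy).symm) a ha _ hy hya
    obtain ⟨c1, hc1⟩ := en_surj hg.od
    obtain ⟨c2, hc2⟩ := en_surj (mem_HV.1 ha).2.od
    obtain ⟨a1, ha1, h2⟩ := he1 c1 (by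
      show HOD (en c1) ∧ en c1 ∈ V_ (succ ρ)
      rw [hc1]
      exact ⟨hg, hgr f⟩)
    obtain ⟨a2, ha2, h3⟩ := he2 c2 (by
      show HOD (en c2) ∧ en c2 ∈ V_ κ
      rw [hc2]
      exact ⟨(mem_HV.1 ha).2, (mem_HV.1 ha).1⟩)
    refine ⟨a1, ha1, a2, ha2, ?_⟩
    rw [h2, h3, hc1, hc2, ← h1, rank_toZFSet]
  have hB : jj K.ord.toZFSet ⊆ K.ord.toZFSet := by
    intro y hy
    obtain ⟨f, a, hf, ha, hya⟩ := hgen _ _ hy (HOD.ordinal K.ord)
    obtain ⟨τ3, hτ3, e3, he3⟩ := Pool.Agent.H65.HD9.Y1.X K hK hK0 hpow ξ hξ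
    obtain ⟨s, hs, hs2⟩ := Pool.Agent.H3.HD.exists_bound (ρ := K.ord) (τ := τ3)
      (by rw [hK.cof_ord]; exact Cardinal.lt_ord.1 hτ3)
      (fun i => open scoped Classical in
        if (ap f (en (e3 i))).rank < K.ord then (ap f (en (e3 i))).rank else 0) (by
        intro i _
        split
        · assumption
        · exact hlim.bot_lt)
    have h1 := s2 B W hf (HOD.ordinal K.ord) (HOD.ordinal (succ s)) (fun u hu y hy he => by
      obtain ⟨b, hb, rfl⟩ := mem_toZFSet_iff.1 hy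
      obtain ⟨c, hc⟩ := en_surj (mem_HV.1 hu).2.od
      obtain ⟨i, hi, h2⟩ := he3 c (by
        show HOD (en c) ∧ en c ∈ V_ ξ
        rw [hc]
        exact ⟨(mem_HV.1 hu).2, (mem_HV.1 hu).1⟩)
      have h3 := hs2 i hi
      rw [h2, hc, ← he, rank_toZFSet, if_pos hb] at h3
      exact toZFSet_mem_toZFSet_iff.2 (lt_succ_iff.2 h3)) a ha _ hy hya
    rw [jj_ord W (succ s)] at h1
    obtain ⟨b, hb, rfl⟩ := mem_toZFSet_iff.1 h1
    exact toZFSet_mem_toZFSet_iff.2 (hb.trans (hA _ (hlim.succ_lt hs)))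
  rw [jj_ord W K.ord] at hB ⊢
  rw [toZFSet_subset_toZFSet_iff] at hB
  rw [le_antisymm hB (Jo_mono W).le_apply]

end Pool.Agent.H70.WM.FIX
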